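import Pool.Agent.VMX.StmtsC

/-!
# Squad VMX, row ATF: facts on attracting rays
-/

set_option autoImplicit false

open Matrix Filter Topology

namespace Pool.Agent.VMX.H91

open Pool.Agent.PFS Pool.Agent.PFJ Pool.Agent.NBT Pool.Agent.VMX

theorem pow_eig {n : ℕ} (H : V n →ₗ[ℝ] V n) (μ : ℝ) (y : V n) (hy : H y = μ • y) (m : ℕ) :
    (H ^ m) y = μ ^ m • y := by
  induction m with
  | zero => simp
  | succ m ih =>
    rw [pow_succ', Module.End.mul_apply, ih, map_smul, hy, smul_smul, ← pow_succ]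

theorem atf : AtfStmt := by
  intro n C hC L H lam x ψ hA
  have hx : x ≠ 0 := by
    intro h
    have := hA.one
    rw [h, map_zero] at this
    exact zero_ne_one this
  have hl := hA.pos
  have hl' := hl.ne'
  refine ⟨hx, ?_, ?_, ?_, ?_, ?_⟩
  · intro y hy he
    have h1 := hA.lim y hy
    have h2 : (fun m : ℕ => (lam⁻¹) ^ m • (H ^ m) y) = fun _ => y := by
      funext m
      rw [pow_eig H lam y he, smul_smul, ← mul_pow, inv_mul_cancel₀ hl', one_pow, one_smul]
    rw [h2] at h1
    exact tendsto_nhds_unique tendsto_const_nhds h1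
  · intro u hu
    have h1 := hA.lim (H u) (hA.inv u hu)
    have h2 := (((hA.lim u hu).comp (tendsto_add_atTop_nat 1)).const_smul lam)
    have h3 : (fun m : ℕ => (lam⁻¹) ^ m • (H ^ m) (H u))
        = fun m : ℕ => lam • ((fun m : ℕ => (lam⁻¹) ^ m • (H ^ m) u) ∘ fun a => a + 1) m := by
      funext m
      show (lam⁻¹) ^ m • (H ^ m) (H u) = lam • ((lam⁻¹) ^ (m + 1) • (H ^ (m + 1)) u)
      rw [pow_succ H m, Module.End.mul_apply, smul_smul, pow_succ', ← mul_assoc,
        mul_inv_cancel₀ hl', one_mul]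
    rw [h3] at h1
    have h4 := tendsto_nhds_unique h1 h2
    rw [smul_smul] at h4
    exact smul_left_injective ℝ hx h4
  · intro p hp u hu
    have h1 := hA.lim u hu
    obtain ⟨M0, hM0, hM0C⟩ := hC.absorb hp (ψ u • x)
    have h2 : Tendsto (fun m : ℕ => M0 • p - (lam⁻¹) ^ m • (H ^ m) u) atTop
        (𝓝 (M0 • p - ψ u • x)) := tendsto_const_nhds.sub h1
    obtain ⟨N, hN⟩ := eventually_atTop.1 (h2.eventually (hC.isOpen.mem_nhds hM0C))
    have h3 : ∀ m : ℕ, ∃ M : ℝ, 0 < M ∧ M • p - (lam⁻¹) ^ m • (H ^ m) u ∈ C :=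
      fun m => hC.absorb hp _
    choose Mf hMf hMfC using h3
    have hpc : p ∈ closure C := subset_closure hp
    have hmono : ∀ (M M' : ℝ) (v : V n), M ≤ M' → M • p - v ∈ C → M' • p - v ∈ closure C := by
      intro M M' v hM hv
      have e : M' • p - v = (M' - M) • p + (M • p - v) := by
        rw [sub_smul]
        abel
      rw [e]
      exact hC.cl_add (hC.cl_smul hpc (by linarith)) (subset_closure hv)
    refine ⟨M0 + ∑ m ∈ Finset.range N, Mf m, ?_, ?_⟩
    · have : 0 ≤ ∑ m ∈ Finset.range N, Mf m := Finset.sum_nonneg fun m _ => (hMf m).le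
      linarith
    · intro m
      by_cases hm : m < N
      · apply hmono (Mf m) _ _ _ (hMfC m)
        have : Mf m ≤ ∑ m ∈ Finset.range N, Mf m :=
          Finset.single_le_sum (f := Mf) (fun i _ => (hMf i).le) (Finset.mem_range.2 hm)
        linarith
      · apply hmono M0 _ _ _ (hN m (not_lt.1 hm))
        have : 0 ≤ ∑ m ∈ Finset.range N, Mf m := Finset.sum_nonneg fun m _ => (hMf m).le
        linarith
  · intro y hy hy0 μ hμ he
    have h1 := hA.lim y hy
    have h2 : (fun m : ℕ => (lam⁻¹) ^ m • (H ^ m) y) = fun m => (μ / lam) ^ m • y := by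
      funext m
      rw [pow_eig H μ y he, smul_smul, ← mul_pow, div_eq_mul_inv, mul_comm μ]
    rw [h2] at h1
    refine ⟨?_, ?_⟩
    · by_contra hlt
      rw [not_le] at hlt
      have h3 : 1 < μ / lam := (one_lt_div hl).2 hlt
      have h4 : Tendsto (fun m : ℕ => ‖(μ / lam) ^ m • y‖) atTop atTop := by
        have h5 : (fun m : ℕ => ‖(μ / lam) ^ m • y‖) = fun m : ℕ => (μ / lam) ^ m * ‖y‖ := by
          funext m
          rw [norm_smul, Real.norm_of_nonneg (by positivity)]
        rw [h5]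
        exact (tendsto_pow_atTop_atTop_of_one_lt h3).atTop_mul_const (norm_pos_iff.2 hy0)
      exact not_tendsto_nhds_of_tendsto_atTop h4 _ h1.norm
    · intro hlt
      have h3 : μ / lam < 1 := (div_lt_one hl).2 hlt
      have h4 : Tendsto (fun m : ℕ => (μ / lam) ^ m • y) atTop (𝓝 ((0 : ℝ) • y)) :=
        (tendsto_pow_atTop_nhds_zero_of_lt_one (by positivity) h3).smul_const y
      have h5 := tendsto_nhds_unique h1 h4
      rw [zero_smul] at h5
      rcases smul_eq_zero.1 h5 with h6 | h6
      · exact h6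
      · exact absurd h6 hx
  · intro c hc
    refine ⟨hA.mem, hA.cl, ?_, mul_pos hc hl, hA.one, hA.nn, ?_, ?_⟩
    · rw [LinearMap.smul_apply, hA.eig, smul_smul]
    · intro u hu
      rw [LinearMap.smul_apply]
      exact L.smul_mem _ (hA.inv u hu)
    · intro u hu
      have h1 := hA.lim u hu
      have h2 : (fun m : ℕ => ((c * lam)⁻¹) ^ m • ((c • H) ^ m) u)
          = fun m : ℕ => (lam⁻¹) ^ m • (H ^ m) u := by
        funext m
        rw [smul_pow, LinearMap.smul_apply, smul_smul, mul_inv, mul_pow]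
        congr 1
        rw [mul_right_comm, ← mul_pow, inv_mul_cancel₀ hc.ne', one_pow, one_mul]
      rw [h2]
      exact h1

end Pool.Agent.VMX.H91
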